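import Pool.Agent.H933.LL.Stm7

/-!
# P_sob: the Wiener norm of a Lipschitz function supported on a short arc (helper348)
-/

set_option autoImplicit false

open MeasureTheory Metric AddCircle Set
open scoped Real

namespace Pool.Agent.H348.LL

lemma parseval (f : C(UnitAddCircle, ℂ)) :
    HasSum (fun i => ‖fourierCoeff f i‖ ^ 2) (∫ t : UnitAddCircle, ‖f t‖ ^ 2 ∂haarAddCircle) := by
  have h := hasSum_sq_fourierCoeff (ContinuousMap.toLp (E := ℂ) 2 haarAddCircle ℂ f)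
  simp_rw [fourierCoeff_toLp] at h
  have e : (∫ t : UnitAddCircle, ‖(ContinuousMap.toLp (E := ℂ) 2 haarAddCircle ℂ f) t‖ ^ 2
      ∂haarAddCircle) = ∫ t : UnitAddCircle, ‖f t‖ ^ 2 ∂haarAddCircle := by
    refine integral_congr_ae ?_
    filter_upwards [ContinuousMap.coeFn_toLp (E := ℂ) (p := 2) haarAddCircle (𝕜 := ℂ) f] with t ht
    rw [ht]
  rw [e] at h
  exact h

lemma coeff_shift (f : C(UnitAddCircle, ℂ)) (h : UnitAddCircle) (n : ℤ) :
    fourierCoeff (fun t => f (t + h)) n = fourier n h * fourierCoeff f n := by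
  unfold fourierCoeff
  have h1 : ∀ t : UnitAddCircle, (fourier (-n) t : ℂ) • f (t + h)
      = (fun u => fourier n h * ((fourier (-n) u : ℂ) • f u)) (t + h) := by
    intro t
    simp only [smul_eq_mul]
    rw [← mul_assoc]
    congr 1
    have h2 : (fourier (-n) (t + h) : ℂ) = fourier (-n) t * fourier (-n) h := by
      simp only [fourier_apply, smul_add, AddCircle.toCircle_add, Circle.coe_mul]
    have h3 : (fourier n h : ℂ) * fourier (-n) h = 1 := by
      rw [← fourier_add, add_neg_cancel, fourier_zero]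
    rw [h2]
    calc (fourier (-n) t : ℂ) = fourier (-n) t * (fourier n h * fourier (-n) h) := by
          rw [h3, mul_one]
      _ = _ := by ring
  simp_rw [h1]
  rw [integral_add_right_eq_self (μ := haarAddCircle)
    (fun u : UnitAddCircle => fourier n h * ((fourier (-n) u : ℂ) • f u)) h]
  exact integral_const_mul _ _

/-- the difference -/
noncomputable def dif (f : C(UnitAddCircle, ℂ)) (h : UnitAddCircle) : C(UnitAddCircle, ℂ) :=
  ⟨fun t => f (t + h) - f t, by fun_prop⟩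

lemma coeff_dif (f : C(UnitAddCircle, ℂ)) (h : UnitAddCircle) (n : ℤ) :
    fourierCoeff (dif f h) n = (fourier n h - 1) * fourierCoeff f n := by
  have hi : ∀ g : C(UnitAddCircle, ℂ), Integrable g haarAddCircle := fun g =>
    (map_continuous g).integrable_of_hasCompactSupport (HasCompactSupport.of_compactSpace _)
  obtain ⟨fs, hfs⟩ : ∃ fs : C(UnitAddCircle, ℂ), ∀ t, fs t = f (t + h) :=
    ⟨⟨fun t => f (t + h), by fun_prop⟩, fun t => rfl⟩
  have h0 : (fs : UnitAddCircle → ℂ) = fun t => f (t + h) := funext hfs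
  have h1 : fourierCoeff fs n = fourier n h * fourierCoeff f n := by
    rw [h0]
    exact coeff_shift f h n
  have h2 : fourierCoeff (dif f h) + fourierCoeff f = fourierCoeff fs := by
    rw [← fourierCoeff.add (hi _) (hi _)]
    congr 1
    ext t
    rw [Pi.add_apply, hfs]
    change f (t + h) - f t + f t = f (t + h)
    ring
  have h3 := congrFun h2 n
  rw [Pi.add_apply] at h3
  rw [sub_mul, one_mul, ← h1, ← h3]
  ring

lemma meas_ball (t₀ : UnitAddCircle) {r : ℝ} (hr : 0 ≤ r) :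
    (haarAddCircle : Measure UnitAddCircle).real (closedBall t₀ r) ≤ 2 * r := by
  have h1 : (volume : Measure UnitAddCircle) = haarAddCircle := by
    rw [AddCircle.volume_eq_smul_haarAddCircle, ENNReal.ofReal_one, one_smul]
  rw [← h1, Measure.real, AddCircle.volume_closedBall, ENNReal.toReal_ofReal (by positivity)]
  exact min_le_right _ _

lemma int_le (G : C(UnitAddCircle, ℂ)) (S : Set UnitAddCircle) (c b : ℝ)
    (hc : ∀ t, ‖G t‖ ≤ c) (hS : ∀ t, t ∉ S → G t = 0)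
    (hb : (haarAddCircle : Measure UnitAddCircle).real S ≤ b) :
    ∫ t : UnitAddCircle, ‖G t‖ ^ 2 ∂haarAddCircle ≤ c ^ 2 * b := by
  have h1 : ∫ t in S, ‖G t‖ ^ 2 ∂haarAddCircle = ∫ t : UnitAddCircle, ‖G t‖ ^ 2 ∂haarAddCircle := by
    apply setIntegral_eq_integral_of_forall_compl_eq_zero
    intro t ht
    rw [hS t ht, norm_zero]
    norm_num
  rw [← h1]
  have h2 : ‖∫ t in S, ‖G t‖ ^ 2 ∂haarAddCircle‖ ≤
      c ^ 2 * (haarAddCircle : Measure UnitAddCircle).real S := by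
    apply norm_setIntegral_le_of_norm_le_const (measure_lt_top _ _)
    intro t _
    rw [Real.norm_of_nonneg (by positivity)]
    exact pow_le_pow_left₀ (norm_nonneg _) (hc t) 2
  calc ∫ t in S, ‖G t‖ ^ 2 ∂haarAddCircle ≤ ‖∫ t in S, ‖G t‖ ^ 2 ∂haarAddCircle‖ := le_abs_self _
    _ ≤ c ^ 2 * (haarAddCircle : Measure UnitAddCircle).real S := h2
    _ ≤ c ^ 2 * b := mul_le_mul_of_nonneg_left hb (by positivity)

lemma norm_fourier_ge (n : ℤ) (τ : ℝ) (hτ : 0 ≤ τ) (h : |(n : ℝ)| * τ ≤ 1 / 2) :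
    4 * |(n : ℝ)| * τ ≤ ‖(fourier n ((τ : ℝ) : UnitAddCircle) : ℂ) - 1‖ := by
  rw [fourier_coe_apply]
  have hθ : (2 * (Real.pi : ℂ) * Complex.I * n * (τ : ℂ) / ((1 : ℝ) : ℂ))
      = Complex.I * ((2 * Real.pi * n * τ : ℝ) : ℂ) := by
    push_cast; ring
  rw [hθ, Complex.norm_exp_I_mul_ofReal_sub_one]
  have hpi := Real.pi_pos
  have habs : |2 * Real.pi * n * τ / 2| = Real.pi * (|(n : ℝ)| * τ) := by
    rw [show 2 * Real.pi * n * τ / 2 = Real.pi * ((n : ℝ) * τ) by ring, abs_mul, abs_mul,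
      abs_of_pos hpi, abs_of_nonneg hτ]
  have h1 := Real.mul_abs_le_abs_sin (x := 2 * Real.pi * n * τ / 2) (by rw [habs]; nlinarith)
  rw [habs] at h1
  have h2 : 2 / Real.pi * (Real.pi * (|(n : ℝ)| * τ)) = 2 * (|(n : ℝ)| * τ) := by
    field_simp
  rw [h2] at h1
  rw [norm_mul, Real.norm_eq_abs, Real.norm_eq_abs, abs_of_pos (by norm_num : (0 : ℝ) < 2)]
  linarith

/-- the second moment of the coefficients -/
lemma mom2 (F : C(UnitAddCircle, ℂ)) (t₀ : UnitAddCircle) (h m' : ℝ) (hh : 0 < h) (hm' : 0 ≤ m')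
    (hF : ∀ t, 2 * h < dist t t₀ → F t = 0) (hL : ∀ s t, ‖F s - F t‖ ≤ m' * dist s t) (N : ℕ)
    (hN : 1 ≤ N) :
    ∑ n ∈ Finset.Icc (-(N : ℤ)) N, |(n : ℝ)| ^ 2 * ‖fourierCoeff F n‖ ^ 2 ≤ h * m' ^ 2 / 2 := by
  obtain ⟨τ, hτ⟩ : ∃ τ : ℝ, τ = 1 / (2 * N) := ⟨_, rfl⟩
  have hN0 : (1 : ℝ) ≤ N := by exact_mod_cast hN
  have hτ0 : 0 < τ := by rw [hτ]; positivity
  have hτ1 : τ ≤ 1 / 2 := by
    rw [hτ]
    apply one_div_le_one_div_of_le (by norm_num)
    linarith
  have hnorm : ‖((τ : ℝ) : UnitAddCircle)‖ = τ := by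
    have h1 := (AddCircle.norm_coe_eq_abs_iff (x := τ) (1 : ℝ) one_ne_zero).2
      (by rw [abs_of_pos hτ0, abs_one]; exact hτ1)
    rw [h1, abs_of_pos hτ0]
  have h1 : ∫ t : UnitAddCircle, ‖dif F ((τ : ℝ) : UnitAddCircle) t‖ ^ 2 ∂haarAddCircle ≤
      (m' * τ) ^ 2 * (8 * h) := by
    refine int_le _ (closedBall t₀ (2 * h) ∪ closedBall (t₀ - ((τ : ℝ) : UnitAddCircle)) (2 * h))
      _ _ ?_ ?_ ?_
    · intro t
      change ‖F (t + ((τ : ℝ) : UnitAddCircle)) - F t‖ ≤ _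
      refine (hL _ _).trans (le_of_eq ?_)
      rw [dist_eq_norm, add_sub_cancel_left, hnorm]
    · intro t ht
      rw [mem_union, mem_closedBall, mem_closedBall, not_or, not_le, not_le] at ht
      change F (t + ((τ : ℝ) : UnitAddCircle)) - F t = 0
      rw [hF t ht.1, hF (t + ((τ : ℝ) : UnitAddCircle)), sub_zero]
      refine lt_of_lt_of_eq ht.2 ?_
      rw [dist_eq_norm, dist_eq_norm]
      congr 1
      abel
    · refine (measureReal_union_le _ _).trans ?_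
      have a1 := meas_ball t₀ (r := 2 * h) (by positivity)
      have a2 := meas_ball (t₀ - ((τ : ℝ) : UnitAddCircle)) (r := 2 * h) (by positivity)
      linarith
  have h2 := parseval (dif F ((τ : ℝ) : UnitAddCircle))
  have h3 : ∑ n ∈ Finset.Icc (-(N : ℤ)) N, ‖fourierCoeff (dif F ((τ : ℝ) : UnitAddCircle)) n‖ ^ 2 ≤
      (m' * τ) ^ 2 * (8 * h) :=
    (sum_le_hasSum _ (fun i _ => by positivity) h2).trans h1
  have h4 : ∀ n ∈ Finset.Icc (-(N : ℤ)) N, 16 * τ ^ 2 * (|(n : ℝ)| ^ 2 * ‖fourierCoeff F n‖ ^ 2) ≤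
      ‖fourierCoeff (dif F ((τ : ℝ) : UnitAddCircle)) n‖ ^ 2 := by
    intro n hn
    rw [Finset.mem_Icc] at hn
    have hn' : |(n : ℝ)| ≤ N := by
      rw [abs_le]
      constructor
      · exact_mod_cast hn.1
      · exact_mod_cast hn.2
    have h5 : |(n : ℝ)| * τ ≤ 1 / 2 := by
      rw [hτ, mul_one_div, div_le_iff₀ (by positivity)]
      linarith
    have h6 := norm_fourier_ge n τ hτ0.le h5
    rw [coeff_dif, norm_mul, mul_pow]
    calc 16 * τ ^ 2 * (|(n : ℝ)| ^ 2 * ‖fourierCoeff F n‖ ^ 2)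
        = (4 * |(n : ℝ)| * τ) ^ 2 * ‖fourierCoeff F n‖ ^ 2 := by ring
      _ ≤ _ := by
          refine mul_le_mul_of_nonneg_right ?_ (by positivity)
          exact pow_le_pow_left₀ (by positivity) h6 2
  have h5 := (Finset.sum_le_sum h4).trans h3
  rw [← Finset.mul_sum] at h5
  have h6 : 16 * τ ^ 2 * ∑ n ∈ Finset.Icc (-(N : ℤ)) N, |(n : ℝ)| ^ 2 * ‖fourierCoeff F n‖ ^ 2 ≤
      16 * τ ^ 2 * (h * m' ^ 2 / 2) := by
    refine h5.trans (le_of_eq ?_)
    ring
  exact le_of_mul_le_mul_left h6 (by positivity)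

lemma tel (h : ℝ) (hh : 0 < h) (N : ℕ) :
    ∑ n ∈ Finset.range N, 1 / (1 + h * ((n : ℝ) + 1)) ^ 2 ≤ 1 / h * (1 - 1 / (1 + h * N)) := by
  induction N with
  | zero => simp
  | succ N ih =>
    rw [Finset.sum_range_succ]
    refine (add_le_add_left ih _).trans ?_
    have h1 : (0 : ℝ) < 1 + h * N := by positivity
    have h2 : (0 : ℝ) < 1 + h * ((N : ℝ) + 1) := by positivity
    have h3 : 1 / (1 + h * ((N : ℝ) + 1)) ^ 2 ≤
        1 / h * (1 / (1 + h * N) - 1 / (1 + h * ((N : ℝ) + 1))) := by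
      have e : 1 / h * (1 / (1 + h * N) - 1 / (1 + h * ((N : ℝ) + 1))) =
          1 / ((1 + h * N) * (1 + h * ((N : ℝ) + 1))) := by
        field_simp
        ring
      rw [e]
      apply one_div_le_one_div_of_le (by positivity)
      rw [sq]
      apply mul_le_mul_of_nonneg_right _ h2.le
      nlinarith
    push_cast
    calc 1 / h * (1 - 1 / (1 + h * N)) + 1 / (1 + h * ((N : ℝ) + 1)) ^ 2
        ≤ 1 / h * (1 - 1 / (1 + h * N)) +
          1 / h * (1 / (1 + h * N) - 1 / (1 + h * ((N : ℝ) + 1))) := by linarith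
      _ = _ := by ring

lemma wt_sum (h : ℝ) (hh : 0 < h) (N : ℕ) :
    ∑ n ∈ Finset.Icc (-(N : ℤ)) N, 1 / (1 + h * |(n : ℝ)|) ^ 2 ≤ 1 + 2 / h := by
  have key : ∀ N : ℕ, ∑ n ∈ Finset.Icc (-(N : ℤ)) N, 1 / (1 + h * |(n : ℝ)|) ^ 2 =
      1 + 2 * ∑ n ∈ Finset.range N, 1 / (1 + h * ((n : ℝ) + 1)) ^ 2 := by
    intro N
    induction N with
    | zero => simp
    | succ N ih =>
      rw [Finset.sum_range_succ, mul_add, ← add_assoc, ← ih]
      have e : Finset.Icc (-((N + 1 : ℕ) : ℤ)) ((N + 1 : ℕ) : ℤ) =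
          insert (-((N + 1 : ℕ) : ℤ)) (insert ((N + 1 : ℕ) : ℤ) (Finset.Icc (-(N : ℤ)) N)) := by
        ext x
        simp only [Finset.mem_insert, Finset.mem_Icc]
        omega
      rw [e, Finset.sum_insert, Finset.sum_insert]
      · push_cast
        have e2 : |((N : ℝ) + 1)| = (N : ℝ) + 1 := abs_of_nonneg (by positivity)
        have e3 : |-((N : ℝ) + 1)| = (N : ℝ) + 1 := by rw [abs_neg, e2]
        rw [e3, e2]
        ring
      · simp only [Finset.mem_Icc]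
        omega
      · simp only [Finset.mem_insert, Finset.mem_Icc]
        omega
  rw [key]
  have h1 := tel h hh N
  have h2 : 1 / h * (1 - 1 / (1 + h * N)) ≤ 1 / h := by
    have h3 : (0 : ℝ) ≤ 1 / (1 + h * N) := by positivity
    have h4 : (0 : ℝ) < 1 / h := by positivity
    nlinarith
  have h5 : 2 / h = 2 * (1 / h) := by ring
  rw [h5]
  linarith

theorem p_sob : Pool.Agent.H933.LL.P_sob := by
  refine ⟨5, by norm_num, ?_⟩
  intro F t₀ h m m' hh hh4 hm hm' hF hFm hL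
  have h0 : ∫ t : UnitAddCircle, ‖F t‖ ^ 2 ∂haarAddCircle ≤ m ^ 2 * (4 * h) := by
    refine int_le F (closedBall t₀ (2 * h)) m _ hFm ?_ ?_
    · intro t ht
      rw [mem_closedBall, not_le] at ht
      exact hF t ht
    · have a1 := meas_ball t₀ (r := 2 * h) (by positivity)
      linarith
  have hfin : ∀ N : ℕ, 1 ≤ N → ∑ n ∈ Finset.Icc (-(N : ℤ)) N, ‖fourierCoeff F n‖ ≤
      5 * (m + h * m') := by
    intro N hN
    have h1 : ∑ n ∈ Finset.Icc (-(N : ℤ)) N, ‖fourierCoeff F n‖ ^ 2 ≤ m ^ 2 * (4 * h) :=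
      (sum_le_hasSum _ (fun i _ => by positivity) (parseval F)).trans h0
    have h2 := mom2 F t₀ h m' hh hm' hF hL N hN
    have h3 := Finset.sum_mul_sq_le_sq_mul_sq (Finset.Icc (-(N : ℤ)) N)
      (fun n => ‖fourierCoeff F n‖ * (1 + h * |(n : ℝ)|)) (fun n => 1 / (1 + h * |(n : ℝ)|))
    have e1 : ∀ n : ℤ, ‖fourierCoeff F n‖ * (1 + h * |(n : ℝ)|) * (1 / (1 + h * |(n : ℝ)|)) =
        ‖fourierCoeff F n‖ := by
      intro n
      have : 1 + h * |(n : ℝ)| ≠ 0 := by positivity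
      field_simp
    simp only [e1] at h3
    have h4 : ∑ n ∈ Finset.Icc (-(N : ℤ)) N, (‖fourierCoeff F n‖ * (1 + h * |(n : ℝ)|)) ^ 2 ≤
        2 * (m ^ 2 * (4 * h)) + 2 * h ^ 2 * (h * m' ^ 2 / 2) := by
      have h5 : ∀ n ∈ Finset.Icc (-(N : ℤ)) N, (‖fourierCoeff F n‖ * (1 + h * |(n : ℝ)|)) ^ 2 ≤
          2 * ‖fourierCoeff F n‖ ^ 2 + 2 * h ^ 2 * (|(n : ℝ)| ^ 2 * ‖fourierCoeff F n‖ ^ 2) := by
        intro n _
        have h6 : (1 + h * |(n : ℝ)|) ^ 2 ≤ 2 + 2 * h ^ 2 * |(n : ℝ)| ^ 2 := by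
          nlinarith [sq_nonneg (1 - h * |(n : ℝ)|)]
        calc (‖fourierCoeff F n‖ * (1 + h * |(n : ℝ)|)) ^ 2
            = ‖fourierCoeff F n‖ ^ 2 * (1 + h * |(n : ℝ)|) ^ 2 := by ring
          _ ≤ ‖fourierCoeff F n‖ ^ 2 * (2 + 2 * h ^ 2 * |(n : ℝ)| ^ 2) :=
              mul_le_mul_of_nonneg_left h6 (by positivity)
          _ = _ := by ring
      refine (Finset.sum_le_sum h5).trans ?_
      rw [Finset.sum_add_distrib, ← Finset.mul_sum, ← Finset.mul_sum]
      have h7 : 2 * h ^ 2 * ∑ n ∈ Finset.Icc (-(N : ℤ)) N,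
          |(n : ℝ)| ^ 2 * ‖fourierCoeff F n‖ ^ 2 ≤ 2 * h ^ 2 * (h * m' ^ 2 / 2) :=
        mul_le_mul_of_nonneg_left h2 (by positivity)
      linarith
    have h8 : ∑ n ∈ Finset.Icc (-(N : ℤ)) N, (1 / (1 + h * |(n : ℝ)|)) ^ 2 ≤ 3 / h := by
      have h9 := wt_sum h hh N
      simp only [div_pow, one_pow]
      refine h9.trans ?_
      rw [show (3 : ℝ) / h = 1 / h + 2 / h by ring]
      have : (1 : ℝ) ≤ 1 / h := by
        rw [le_div_iff₀ hh]
        linarith
      linarith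
    have h10 : (∑ n ∈ Finset.Icc (-(N : ℤ)) N, ‖fourierCoeff F n‖) ^ 2 ≤
        (5 * (m + h * m')) ^ 2 := by
      refine h3.trans ?_
      calc _ ≤ (2 * (m ^ 2 * (4 * h)) + 2 * h ^ 2 * (h * m' ^ 2 / 2)) * (3 / h) := by
            refine mul_le_mul h4 h8 (Finset.sum_nonneg fun n _ => sq_nonneg _) (by positivity)
        _ = 24 * m ^ 2 + 3 * h ^ 2 * m' ^ 2 := by
            field_simp
            ring
        _ ≤ (5 * (m + h * m')) ^ 2 := by
            have : 0 ≤ m * (h * m') := by positivity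
            nlinarith [sq_nonneg (h * m'), sq_nonneg m]
    exact le_of_sq_le_sq h10 (by positivity)
  have hb : ∀ s : Finset ℤ, ∑ n ∈ s, ‖fourierCoeff F n‖ ≤ 5 * (m + h * m') := by
    intro s
    obtain ⟨N, hN⟩ : ∃ N : ℕ, ∀ n ∈ s, n.natAbs ≤ N :=
      ⟨s.sup Int.natAbs, fun n hn => Finset.le_sup (f := Int.natAbs) hn⟩
    refine le_trans (Finset.sum_le_sum_of_subset_of_nonneg ?_ fun n _ _ => norm_nonneg _)
      (hfin (N + 1) (by omega))
    intro n hn
    have := hN n hn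
    rw [Finset.mem_Icc]
    omega
  have hs : Summable fun n : ℤ => ‖fourierCoeff F n‖ :=
    summable_of_sum_le (fun n => norm_nonneg _) hb
  exact ⟨hs, hs.tsum_le_of_sum_le hb⟩

end Pool.Agent.H348.LL
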